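import Mathlib
import Pool.Agent.TH504.VY.Main

/-!
# The variational Hodge conjecture for relative motives and their products with abelian schemes

`B` is the universal covering of the base, `Y → B` is a family of smooth projective varieties and
`M = (Y, e)` is a relative motive: `e` is a relative correspondence (of any degrees), whose action
on the cohomology of the fibres is idempotent. `A → B` is a fibre product (repetitions allowed) of
families of principally polarized abelian varieties which move relative to `Y`. The variational Hodge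
conjecture for the relative motive `h(A) ⊗ M = (A ×_B Y, 1 × e)` in codimension `p` follows from the
variational Hodge conjecture for `M` in the codimensions `q ≤ p`, and implies it for `M` in
codimension `p`.
-/

set_option autoImplicit false

namespace Pool.Agent.Results.MP_e9c0f3_ag.RelativeMotivesTimes

open Matrix Module Pool.Agent.H204R3.CM Pool.Agent.H194R3.CM Pool.Agent.W437.HD
  Pool.Agent.W437.HP Pool.Agent.TH131.GHC Pool.Agent.TH504.VY

/-- A relative motive `M` given by the family `Y`: the action `e` of an idempotent relative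
correspondence (which may be a sum of correspondences of different degrees) on the rational cohomology
of the fibres `Y_b`. It is flat and idempotent and commutes with the Hodge operators of all fibres (it
preserves the differences `p - q` of the types `(p, q)`). -/
structure RelMotive {B : Type} {v : ℕ} (Y : B → Coh v) where
  /-- the action of the correspondence -/
  e : (Fin v → ℚ) →ₗ[ℚ] (Fin v → ℚ)
  idem : ∀ x, e (e x) = e x
  hodge : ∀ b, (Y b).z * (LinearMap.toMatrix' e).map (algebraMap ℚ ℂ) =
    (LinearMap.toMatrix' e).map (algebraMap ℚ ℂ) * (Y b).z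

/-- The operator `1 × e` on the cohomology of `A_b × Y_b`, which defines the relative motive
`h(A) ⊗ M`. -/
def timesOp {W : Type} [AddCommGroup W] [Module ℚ W] {v : ℕ}
    (e : (Fin v → ℚ) →ₗ[ℚ] (Fin v → ℚ)) (F : HAZ W v) : HAZ W v :=
  fun k => e.compAlternatingMap (F k)

section defs

variable {B : Type} {v : ℕ} {Y : B → Coh v}

/-- The class `x` on `Y` is of degree `i`, where `dg` gives the degrees of the basis. -/
def IsOfDegree (dg : Fin v → ℕ) (i : ℕ) (x : Fin v → ℚ) : Prop := ∀ c, x c ≠ 0 → dg c = i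

/-- The variational Hodge conjecture for `M` in degree `i`: a flat class `x` of `M` (that is,
`e x = x`) of degree `i` which is a Hodge class on all fibres and is algebraic at one point (the image
under `e` of an algebraic class) is algebraic at all points. -/
def VariationalIn (M : RelMotive Y) (dg : Fin v → ℕ) (algY : B → Submodule ℚ (Fin v → ℚ))
    (i : ℕ) : Prop :=
  ∀ x, IsOfDegree dg i x → (∀ b, IsHodgeOn (Y b) x) → M.e x = x → ∀ b₀,
    (∃ y ∈ algY b₀, M.e y = x) → ∀ b, ∃ y ∈ algY b, M.e y = x

variable {W T : Type} [AddCommGroup W] [Module ℚ W] [AddCommGroup T] [Module ℂ T]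
  (per : B → W →+ T)

/-- The class `F` on `A × Y` is of degree `i`: its component in `H^k(A) ⊗ H(Y)` has values of degree
`l` with `k + l = i`. -/
def IsOfTotalDegree (dg : Fin v → ℕ) (i : ℕ) (F : HAZ W v) : Prop :=
  ∀ k w c, F k w c ≠ 0 → k + dg c = i

/-- The variational Hodge conjecture for `h(A) ⊗ M` in degree `i`. -/
def VariationalTimesIn (M : RelMotive Y) (dg : Fin v → ℕ) (alg : B → Submodule ℚ (HAZ W v))
    (i : ℕ) : Prop :=
  ∀ F, IsOfTotalDegree dg i F → (∀ b, IsHodgeOnProduct (per b) (Y b) F) → timesOp M.e F = F →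
    ∀ b₀, (∃ G ∈ alg b₀, timesOp M.e G = F) → ∀ b, ∃ G ∈ alg b, timesOp M.e G = F

/-- The restriction of an algebraic class on `A_b × Y_b` to `0 × Y_b` is algebraic. -/
def RestrictClosed (S : CycleSystem per v) : Prop := ∀ b, ∀ F ∈ S.alg b, F 0 ![] ∈ S.algY b

end defs

/-- The statement. -/
def Statement : Prop :=
  ∀ (ι B : Type) [Nonempty B] (g : ι → ℕ) (Z : ∀ i, B → Matrix (Fin (g i)) (Fin (g i)) ℂ)
    (n : ℕ) (c : Fin n → ι) (v : ℕ) (Y : B → Coh v), MovesRelative Z Y →
    ∀ dg : Fin v → ℕ, (∀ b, (Y b).dg = dg) → ∀ (M : RelMotive Y)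
      (S : CycleSystem (fibreProduct Z c) v) (p : ℕ),
      ((∀ q ≤ p, VariationalIn M dg S.algY (2 * q)) →
        VariationalTimesIn (fibreProduct Z c) M dg S.alg (2 * p)) ∧
      (RestrictClosed (fibreProduct Z c) S →
        VariationalTimesIn (fibreProduct Z c) M dg S.alg (2 * p) →
          VariationalIn M dg S.algY (2 * p))

section proof

variable {W T : Type} [AddCommGroup W] [Module ℚ W] [AddCommGroup T] [Module ℂ T]
  {v : ℕ}

theorem timesOp_add (e : (Fin v → ℚ) →ₗ[ℚ] (Fin v → ℚ)) (F G : HAZ W v) :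
    timesOp e (F + G) = timesOp e F + timesOp e G := by
  funext k
  refine AlternatingMap.ext fun w => ?_
  change e ((F k + G k) w) = e (F k w) + e (G k w)
  rw [AlternatingMap.add_apply, map_add]

theorem timesOp_smul (e : (Fin v → ℚ) →ₗ[ℚ] (Fin v → ℚ)) (r : ℚ) (F : HAZ W v) :
    timesOp e (r • F) = r • timesOp e F := by
  funext k
  refine AlternatingMap.ext fun w => ?_
  change e ((r • F k) w) = r • e (F k w)
  rw [AlternatingMap.smul_apply, map_smul]

/-- `1 × e` as a linear map. -/
def timesL (e : (Fin v → ℚ) →ₗ[ℚ] (Fin v → ℚ)) : HAZ W v →ₗ[ℚ] HAZ W v where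
  toFun := timesOp e
  map_add' := timesOp_add e
  map_smul' := timesOp_smul e

theorem timesOp_idem {e : (Fin v → ℚ) →ₗ[ℚ] (Fin v → ℚ)} (he : ∀ x, e (e x) = e x)
    (F : HAZ W v) : timesOp e (timesOp e F) = timesOp e F := by
  funext k
  refine AlternatingMap.ext fun w => ?_
  change e (e (F k w)) = e (F k w)
  rw [he]

theorem timesOp_cross (e : (Fin v → ℚ) →ₗ[ℚ] (Fin v → ℚ)) {k : ℕ} (f : W [⋀^Fin k]→ₗ[ℚ] ℚ)
    (x : Fin v → ℚ) : timesOp e (cross f x) = cross f (e x) := by
  funext l
  by_cases hl : l = k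
  · subst hl
    refine AlternatingMap.ext fun w => ?_
    change e ((cross f x) l w) = (cross f (e x)) l w
    rw [cross, cross, Pi.single_eq_same, Pi.single_eq_same]
    change e (f w • x) = f w • e x
    rw [map_smul]
  · refine AlternatingMap.ext fun w => ?_
    change e ((cross f x) l w) = (cross f (e x)) l w
    rw [cross, cross, Pi.single_eq_of_ne hl, Pi.single_eq_of_ne hl, AlternatingMap.zero_apply,
      map_zero]

theorem fibreIntegral_timesOp (e : (Fin v → ℚ) →ₗ[ℚ] (Fin v → ℚ)) {k j : ℕ}
    (d : Basis (Fin k ⊕ Fin j) ℚ W) (F : HAZ W v) (β : W [⋀^Fin j]→ₗ[ℚ] ℚ) :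
    fibreIntegral d (timesOp e F) β = e (fibreIntegral d F β) := by
  rw [fibreIntegral, fibreIntegral, map_sum]
  refine Finset.sum_congr rfl fun σ _ => ?_
  rw [map_zsmul, map_smul]
  rfl

/-- The correspondence maps Hodge classes to Hodge classes. -/
theorem hodge_op {B : Type} {Y : B → Coh v} (C : RelMotive Y) {b : B} {x : Fin v → ℚ}
    (hx : IsHodgeOn (Y b) x) : IsHodgeOn (Y b) (C.e x) := by
  have h1 : cv (C.e x) = (LinearMap.toMatrix' C.e).map (algebraMap ℚ ℂ) *ᵥ cv x := by
    funext b
    have h2 : C.e x = (LinearMap.toMatrix' C.e) *ᵥ x := (LinearMap.toMatrix'_mulVec C.e x).symm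
    change ((C.e x b : ℚ) : ℂ) = _
    rw [h2]
    simp only [Matrix.mulVec, dotProduct, Matrix.map_apply, cv, Rat.cast_sum, Rat.cast_mul,
      eq_ratCast]
  change (Y b).z *ᵥ cv (C.e x) = 0
  rw [h1, Matrix.mulVec_mulVec, C.hodge, ← Matrix.mulVec_mulVec]
  have h2 : (Y b).z *ᵥ cv x = 0 := hx
  rw [h2, Matrix.mulVec_zero]

theorem one_mem_divisorSpan (per : W →+ T) :
    (AlternatingMap.constOfIsEmpty ℚ W (Fin 0) (1 : ℚ)) ∈ divisorSpan per 0 := by
  refine Submodule.subset_span ⟨0, Equiv.equivOfIsEmpty _ _, Fin.elim0, fun l => l.elim0, ?_⟩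
  intro w
  rw [AlternatingMap.constOfIsEmpty_apply]
  have h : (Finset.univ : Finset (Equiv.Perm (Fin 0))) = {1} := by decide
  rw [h, Finset.sum_singleton]
  simp

theorem hodge_one (per : W →+ T) {V : Coh v} {x : Fin v → ℚ} (hx : IsHodgeOn V x) :
    IsHodgeOnProduct per V (cross (AlternatingMap.constOfIsEmpty ℚ W (Fin 0) (1 : ℚ)) x) := by
  refine ⟨Pi.single 0 (AlternatingMap.constOfIsEmpty ℝ T (Fin 0) (cv x)), ?_, ?_⟩
  · intro k w
    by_cases hk : k = 0
    · subst hk
      rw [cross, Pi.single_eq_same, Pi.single_eq_same]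
      change cv x = cv ((1 : ℚ) • x)
      rw [one_smul]
    · rw [cross, Pi.single_eq_of_ne hk, Pi.single_eq_of_ne hk]
      rw [AlternatingMap.zero_apply, AlternatingMap.zero_apply]
      funext b
      simp only [cv, Pi.zero_apply, Rat.cast_zero]
  · intro k u
    by_cases hk : k = 0
    · subst hk
      rw [Pi.single_eq_same]
      change (-Complex.I) • ∑ l : Fin 0, _ + V.z *ᵥ cv x = ((0 : ℤ) : ℂ) • cv x
      have h2 : V.z *ᵥ cv x = 0 := hx
      rw [h2, Finset.univ_eq_empty, Finset.sum_empty, smul_zero, Int.cast_zero, zero_smul, add_zero]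
    · rw [Pi.single_eq_of_ne hk]
      simp only [AlternatingMap.zero_apply, Finset.sum_const_zero, smul_zero, Matrix.mulVec_zero,
        add_zero]

theorem divisorSpan_odd (per : W →+ T) {k : ℕ} (hk : Odd k) {f : W [⋀^Fin k]→ₗ[ℚ] ℚ}
    (hf : f ∈ divisorSpan per k) : f = 0 := by
  have h : {f : W [⋀^Fin k]→ₗ[ℚ] ℚ | ∃ (r : ℕ) (e : Fin r × Fin 2 ≃ Fin k)
      (C : Fin r → W [⋀^Fin 2]→ₗ[ℚ] ℚ), (∀ l, IsHodge per (C l)) ∧
      ∀ w, f w = ∑ σ : Equiv.Perm (Fin k), (Equiv.Perm.sign σ : ℤ) *
        ∏ l, C l ![w (σ (e (l, 0))), w (σ (e (l, 1)))]} = ∅ := by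
    rw [Set.eq_empty_iff_forall_notMem]
    rintro f ⟨r, e, -⟩
    have h1 := Fintype.card_congr e
    rw [Fintype.card_prod, Fintype.card_fin, Fintype.card_fin, Fintype.card_fin] at h1
    rw [← h1] at hk
    exact (Nat.not_odd_iff_even.2 ⟨r, by ring⟩) hk
  unfold divisorSpan at hf
  rw [h, Submodule.span_empty] at hf
  exact hf

theorem integral_degree {dg : Fin v → ℕ} {i k j : ℕ} {F : HAZ W v} (hF : IsOfTotalDegree dg i F)
    (d : Basis (Fin k ⊕ Fin j) ℚ W) (β : W [⋀^Fin j]→ₗ[ℚ] ℚ) {c : Fin v}
    (hc : fibreIntegral d F β c ≠ 0) : k + dg c = i := by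
  rw [fibreIntegral, Finset.sum_apply] at hc
  obtain ⟨σ, -, hσ⟩ := Finset.exists_ne_zero_of_sum_ne_zero hc
  refine hF k (fun l => d (σ (Sum.inl l))) c fun h0 => hσ ?_
  rw [Pi.smul_apply, Pi.smul_apply, h0, smul_zero, smul_zero]

end proof

theorem result : Statement := by
  intro ι B _ g Z n c v Y hmov dg hdg M S p
  have hmov' : MovesRelative (fun j => Z (c j)) Y := by
    intro b
    obtain ⟨d, U, φ, hU, hc, hb, hY, hm⟩ := hmov b
    exact ⟨d, U, φ, hU, hc, hb, hY, fun j => hm (c j)⟩
  refine ⟨fun h F hdeg hF hfix b₀ hb₀ b => ?_, fun hres h => ?_⟩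
  · obtain ⟨G, hG, hGF⟩ := hb₀
    have h1 : F ∈ (S.alg b).map (timesL M.e) := by
      refine mem_of_integrals hmov' hF fun k j d f β hf hβ => ?_
      rcases Nat.even_or_odd k with hk | hk
      · obtain ⟨a, ha⟩ := hk
        obtain ⟨x, hx⟩ : ∃ x, x = fibreIntegral d F β := ⟨_, rfl⟩
        have hxe : M.e (fibreIntegral d G β) = x := by
          rw [← fibreIntegral_timesOp, hGF, hx]
        have hxx : M.e x = x := by rw [← hxe, M.idem]
        have hxH : ∀ b', IsHodgeOn (Y b') x := by
          intro b'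
          rw [hx]
          exact integral_mem hmov' hF d β b'
        rw [← hx]
        by_cases hx0 : x = 0
        · rw [hx0]
          have h0 : cross f (0 : Fin v → ℚ) = (0 : HAZ _ v) := by
            funext l
            by_cases hl : l = k
            · subst hl
              refine AlternatingMap.ext fun w => ?_
              rw [cross, Pi.single_eq_same]
              change f w • (0 : Fin v → ℚ) = 0
              rw [smul_zero]
            · rw [cross, Pi.single_eq_of_ne hl]
              rfl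
          rw [h0]
          exact Submodule.zero_mem _
        · obtain ⟨c₀, hc₀⟩ := Function.ne_iff.1 hx0
          have hkc : k + dg c₀ = 2 * p := by
            refine integral_degree hdeg d β ?_
            rw [← hx]
            exact hc₀
          have hap : a ≤ p := by omega
          have hxd : IsOfDegree dg (2 * (p - a)) x := by
            intro c₁ hc₁
            have h2 : k + dg c₁ = 2 * p := by
              refine integral_degree hdeg d β ?_
              rw [← hx]
              exact hc₁
            omega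
          obtain ⟨y, hy, hye⟩ := h (p - a) (Nat.sub_le p a) x hxd hxH hxx b₀
            ⟨_, S.integral_mem b₀ G hG k j d β (hβ b₀), hxe⟩ b
          refine ⟨cross f y, S.cross_mem b k f (hf b) y hy, ?_⟩
          change timesOp M.e (cross f y) = cross f x
          rw [timesOp_cross, hye]
      · have hf0 : f = 0 := divisorSpan_odd _ hk (hf b)
        have h0 : cross f (fibreIntegral d F β) = (0 : HAZ _ v) := by
          rw [hf0]
          funext l
          by_cases hl : l = k
          · subst hl
            refine AlternatingMap.ext fun w => ?_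
            rw [cross, Pi.single_eq_same]
            change (0 : ℚ) • fibreIntegral d F β = 0
            rw [zero_smul]
          · rw [cross, Pi.single_eq_of_ne hl]
            rfl
        rw [h0]
        exact Submodule.zero_mem _
    obtain ⟨G', hG', hGe⟩ := h1
    exact ⟨G', hG', hGe⟩
  · rintro x hdx hx hex b₀ ⟨y, hy, hyx⟩ b
    have hdeg : IsOfTotalDegree (W := ∀ j, Fin (g (c j)) ⊕ Fin (g (c j)) → ℚ) dg (2 * p)
        (cross (AlternatingMap.constOfIsEmpty ℚ _ (Fin 0) (1 : ℚ)) x) := by
      intro k w c₀ hc₀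
      by_cases hk : k = 0
      · subst hk
        rw [cross, Pi.single_eq_same] at hc₀
        have h1 : x c₀ ≠ 0 := by
          intro h0
          apply hc₀
          change (1 : ℚ) * x c₀ = 0
          rw [h0, mul_zero]
        rw [hdx c₀ h1, zero_add]
      · rw [cross, Pi.single_eq_of_ne hk] at hc₀
        exact absurd rfl hc₀
    obtain ⟨G, hG, hGe⟩ := h (cross (AlternatingMap.constOfIsEmpty ℚ _ (Fin 0) (1 : ℚ)) x) hdeg
      (fun b => hodge_one _ (hx b)) (by rw [timesOp_cross, hex]) b₀
      ⟨cross (AlternatingMap.constOfIsEmpty ℚ _ (Fin 0) (1 : ℚ)) y,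
        S.cross_mem b₀ 0 _ (one_mem_divisorSpan _) y hy, by rw [timesOp_cross, hyx]⟩ b
    refine ⟨G 0 ![], hres b G hG, ?_⟩
    have h1 := congrArg (fun F : HAZ (∀ j, Fin (g (c j)) ⊕ Fin (g (c j)) → ℚ) v => F 0 ![]) hGe
    change M.e (G 0 ![]) = _ at h1
    rw [h1]
    change (cross (AlternatingMap.constOfIsEmpty ℚ _ (Fin 0) (1 : ℚ)) x :
      HAZ (∀ j, Fin (g (c j)) ⊕ Fin (g (c j)) → ℚ) v) 0 ![] = x
    rw [cross, Pi.single_eq_same]
    change (1 : ℚ) • x = x
    rw [one_smul]

end Pool.Agent.Results.MP_e9c0f3_ag.RelativeMotivesTimes
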